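import Pool.Agent.Helper92_SBG.Rd

/-!
Module BXU: coordinates of an element of word length at most `n`.
-/

namespace Pool.Agent.SBG.H91

open Pool.Agent.SBG

lemma wtI_pos {k : ℕ} (c : Ix k) : 1 ≤ wtI c := by
  rcases c with ⟨i, s⟩ | j
  · cases s <;> simp [wtI, Sy.wt]
  · simp [wtI]

/-- The size of an element. -/
def sz {k : ℕ} (t : Gp k) : ℕ := t.m.natAbs + ∑ c, (t.x c).natAbs

lemma m_le_sz {k : ℕ} (t : Gp k) : |t.m| ≤ (sz t : ℤ) := by
  rw [Int.abs_eq_natAbs]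
  exact_mod_cast Nat.le_add_right _ _

lemma x_le_sz {k : ℕ} (t : Gp k) (c : Jx k) : |t.x c| ≤ (sz t : ℤ) := by
  rw [Int.abs_eq_natAbs]
  have h1 : (t.x c).natAbs ≤ ∑ c, (t.x c).natAbs :=
    Finset.single_le_sum (f := fun c => (t.x c).natAbs) (fun _ _ => Nat.zero_le _)
      (Finset.mem_univ c)
  have h2 : (t.x c).natAbs ≤ sz t := h1.trans (Nat.le_add_left _ _)
  exact_mod_cast h2

/-- The induction. -/
lemma word_bound {k : ℕ} (A : ℤ) (hA : 1 ≤ A) (n : ℕ) (hn : 1 ≤ n) :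
    ∀ l : List (Gp k), l.length ≤ n → (∀ t ∈ l, |t.m| ≤ A ∧ ∀ c, |t.x c| ≤ A) →
      |l.prod.m| ≤ A * l.length ∧
      (∀ c : Ix k, (n : ℤ) * |l.prod.x (Sum.inl c)| ≤ 40 * A ^ 4 * l.length * (n : ℤ) ^ wtI c) ∧
      ∀ j, |l.prod.x (Sum.inr j)| ≤ (41 * A ^ 4 + 25600 * k * A ^ 8) * l.length * (n : ℤ) ^ 4 := by
  have hn1 : (1 : ℤ) ≤ n := by exact_mod_cast hn
  have hn0 : (0 : ℤ) ≤ n := by linarith
  intro l
  induction l using List.reverseRecOn with
  | nil =>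
    intro _ _
    refine ⟨by simp, fun c => by simp, fun j => by simp⟩
  | append_singleton l t ih =>
    intro hl hT
    rw [List.length_append, List.length_singleton] at hl
    obtain ⟨i1, i2, i3⟩ := ih (by omega) (fun s hs => hT s (List.mem_append_left _ hs))
    obtain ⟨t1, t2⟩ := hT t (by simp)
    have hl' : (l.length : ℤ) ≤ n := by exact_mod_cast (by omega : l.length ≤ n)
    have hl0 : (0 : ℤ) ≤ l.length := by positivity
    rw [List.length_append, List.length_singleton, List.prod_append, List.prod_singleton]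
    push_cast
    set g := l.prod with hg
    set L : ℤ := (l.length : ℤ) with hL
    have hgm : |g.m| ≤ A * n := i1.trans (mul_le_mul_of_nonneg_left hl' (by linarith))
    have pw : ∀ c : Ix k, (n : ℤ) ≤ (n : ℤ) ^ wtI c := fun c => by
      calc (n : ℤ) = (n : ℤ) ^ 1 := (pow_one _).symm
        _ ≤ (n : ℤ) ^ wtI c := pow_le_pow_right₀ hn1 (wtI_pos c)
    have pw1 : ∀ e : ℕ, (1 : ℤ) ≤ (n : ℤ) ^ e := fun e => one_le_pow₀ hn1
    have hA1 : 1 ≤ A ^ 4 := one_le_pow₀ hA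
    have ab : ∀ (y : W k) (c : Jx k), |((n : ℤ) • y) c| = n * |y c| := fun y c => by
      rw [Pi.smul_apply, smul_eq_mul, abs_mul, abs_of_nonneg hn0]
    -- the vector `T ^ m t`
    have hA41 : A ≤ A ^ 4 := le_self_pow₀ hA (by norm_num)
    obtain ⟨_, b2⟩ := tp_bound hn t.x A A (by linarith) hA
      (fun c => by
        calc |t.x (Sum.inl c)| ≤ A * 1 := by rw [mul_one]; exact t2 _
          _ ≤ A * (n : ℤ) ^ wtI c := mul_le_mul_of_nonneg_left (pw1 _) (by linarith)) g.m hgm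
    obtain ⟨b1, _⟩ := tp_bound hn ((n : ℤ) • t.x) A A (by linarith) hA
      (fun c => by
        rw [ab]
        calc (n : ℤ) * |t.x (Sum.inl c)| ≤ (n : ℤ) ^ wtI c * A :=
              mul_le_mul (pw c) (t2 _) (abs_nonneg _) (by positivity)
          _ = A * (n : ℤ) ^ wtI c := by ring) g.m hgm
    set w := tp g.m t.x with hw
    have b1' : ∀ c : Ix k, (n : ℤ) * |w (Sum.inl c)| ≤ 40 * A ^ 4 * (n : ℤ) ^ wtI c := by
      intro c
      have h := b1 c
      rw [map_zsmul, ab] at h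
      calc (n : ℤ) * |w (Sum.inl c)| ≤ 40 * A ^ 3 * A * (n : ℤ) ^ wtI c := h
        _ = 40 * A ^ 4 * (n : ℤ) ^ wtI c := by ring
    have b2' : ∀ j, |w (Sum.inr j)| ≤ 41 * A ^ 4 * (n : ℤ) ^ 4 := by
      intro j
      have h := b2 j
      have h3 : |t.x (Sum.inr j)| ≤ A ^ 4 * (n : ℤ) ^ 4 := by
        calc |t.x (Sum.inr j)| ≤ A * 1 := by rw [mul_one]; exact t2 _
          _ ≤ A ^ 4 * (n : ℤ) ^ 4 := mul_le_mul hA41 (pw1 4) (by norm_num) (by positivity)
      have h4 : 40 * A ^ 3 * A * (n : ℤ) ^ 4 = 40 * A ^ 4 * (n : ℤ) ^ 4 := by ring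
      linarith
    -- the form
    have bf : ∀ j, |bz g.x w j| ≤ 25600 * k * A ^ 8 * (n : ℤ) ^ 4 := by
      intro j
      have h := bz_bound hn ((n : ℤ) • g.x) ((n : ℤ) • w) (40 * A ^ 4 * L) (40 * A ^ 4)
        (by positivity) (by positivity) (fun c => by rw [ab]; exact i2 c)
        (fun c => by rw [ab]; exact b1' c) j
      have h5 : Bf ((n : ℤ) • g.x) ((n : ℤ) • w) = ((n : ℤ) * n) • Bf g.x w := by
        rw [Bf_zsmul_left, Bf_zsmul_right, mul_smul]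
      have h6 : bz ((n : ℤ) • g.x) ((n : ℤ) • w) j = ((n : ℤ) * n) * bz g.x w j := by
        have := congrFun h5 (Sum.inr j)
        simpa [Bf, zin] using this
      rw [h6, abs_mul, abs_of_nonneg (by positivity : (0 : ℤ) ≤ (n : ℤ) * n)] at h
      have h7 : 16 * (k : ℤ) * (40 * A ^ 4 * L * (40 * A ^ 4)) * (n : ℤ) ^ 5 ≤
          ((n : ℤ) * n) * (25600 * k * A ^ 8 * (n : ℤ) ^ 4) := by
        have e1 : 16 * (k : ℤ) * (40 * A ^ 4 * L * (40 * A ^ 4)) * (n : ℤ) ^ 5 =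
            (25600 * k * A ^ 8 * (n : ℤ) ^ 5) * L := by ring
        have e2 : ((n : ℤ) * n) * (25600 * k * A ^ 8 * (n : ℤ) ^ 4) =
            (25600 * k * A ^ 8 * (n : ℤ) ^ 5) * n := by ring
        rw [e1, e2]
        exact mul_le_mul_of_nonneg_left hl' (by positivity)
      exact le_of_mul_le_mul_left (h.trans h7) (by positivity)
    refine ⟨?_, ?_, ?_⟩
    · rw [Gp.mul_m]
      calc |g.m + t.m| ≤ |g.m| + |t.m| := abs_add_le _ _
        _ ≤ A * L + A := add_le_add i1 t1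
        _ = A * (L + 1) := by ring
    · intro c
      have e : (g * t).x (Sum.inl c) = g.x (Sum.inl c) + w (Sum.inl c) := by
        rw [Gp.mul_x]
        simp [Bf, zin, hw]
      rw [e]
      calc (n : ℤ) * |g.x (Sum.inl c) + w (Sum.inl c)|
          ≤ n * (|g.x (Sum.inl c)| + |w (Sum.inl c)|) :=
            mul_le_mul_of_nonneg_left (abs_add_le _ _) hn0
        _ = n * |g.x (Sum.inl c)| + n * |w (Sum.inl c)| := by ring
        _ ≤ 40 * A ^ 4 * L * (n : ℤ) ^ wtI c + 40 * A ^ 4 * (n : ℤ) ^ wtI c :=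
            add_le_add (i2 c) (b1' c)
        _ = 40 * A ^ 4 * (L + 1) * (n : ℤ) ^ wtI c := by ring
    · intro j
      have e : (g * t).x (Sum.inr j) = g.x (Sum.inr j) + w (Sum.inr j) + bz g.x w j := by
        rw [Gp.mul_x]
        simp [Bf, zin, hw]
      rw [e]
      have h1 := abs_add_three (g.x (Sum.inr j)) (w (Sum.inr j)) (bz g.x w j)
      have h2 := i3 j
      have h3 := b2' j
      have h4 := bf j
      have e2 : (41 * A ^ 4 + 25600 * k * A ^ 8) * (L + 1) * (n : ℤ) ^ 4 =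
          (41 * A ^ 4 + 25600 * k * A ^ 8) * L * (n : ℤ) ^ 4 + 41 * A ^ 4 * (n : ℤ) ^ 4 +
          25600 * k * A ^ 8 * (n : ℤ) ^ 4 := by ring
      rw [e2]
      linarith

/-- BXU. -/
theorem bxu : BxuStmt := by
  classical
  intro k S hS
  set a : ℕ := 1 + ∑ t ∈ S, (sz t + sz t⁻¹) with ha
  have hab : ∀ t : Gp k, t ∈ S ∨ t⁻¹ ∈ S → sz t ≤ a := by
    intro t ht
    have h0 : ∀ s ∈ S, sz s + sz s⁻¹ ≤ ∑ t ∈ S, (sz t + sz t⁻¹) := fun s hs =>
      Finset.single_le_sum (f := fun t : Gp k => sz t + sz t⁻¹) (fun _ _ => Nat.zero_le _) hs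
    rcases ht with ht | ht
    · have := h0 t ht
      omega
    · have := h0 _ ht
      rw [inv_inv] at this
      omega
  refine ⟨41 * a ^ 4 + 25600 * k * a ^ 8, ?_⟩
  intro n hn g hg
  have hn1 : (1 : ℤ) ≤ n := by exact_mod_cast hn
  have hn0 : (0 : ℤ) < n := by linarith
  have ha1 : (1 : ℤ) ≤ (a : ℤ) := by
    have : 1 ≤ a := by omega
    exact_mod_cast this
  have hne : {m : ℕ | ∃ l : List (Gp k), l.length = m ∧
      (∀ x ∈ l, x ∈ (S : Set (Gp k)) ∨ x⁻¹ ∈ (S : Set (Gp k))) ∧ l.prod = g}.Nonempty := by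
    have hg' : g ∈ Subgroup.closure (S : Set (Gp k)) := by rw [hS]; exact Subgroup.mem_top g
    rw [← Subgroup.mem_toSubmonoid, Subgroup.closure_toSubmonoid] at hg'
    obtain ⟨l, h1, h2⟩ := Submonoid.exists_list_of_mem_closure hg'
    refine ⟨l.length, l, rfl, ?_, h2⟩
    intro x hx
    rcases h1 x hx with h | h
    · exact Or.inl h
    · exact Or.inr (by simpa using h)
  obtain ⟨l, hl, hl2, hl3⟩ := Nat.sInf_mem hne
  have hlen : l.length ≤ n := by rw [hl]; exact hg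
  obtain ⟨r1, r2, r3⟩ := word_bound (k := k) (a : ℤ) ha1 n hn l hlen (by
    intro t ht
    have h1 := hab t (hl2 t ht)
    have h2 : (sz t : ℤ) ≤ a := by exact_mod_cast h1
    exact ⟨(m_le_sz t).trans h2, fun c => (x_le_sz t c).trans h2⟩)
  rw [hl3] at r1 r2 r3
  have hlen' : (l.length : ℤ) ≤ n := by exact_mod_cast hlen
  have hA41 : (a : ℤ) ≤ (a : ℤ) ^ 4 := le_self_pow₀ ha1 (by norm_num)
  have hK : (0 : ℤ) ≤ 25600 * k * (a : ℤ) ^ 8 := by positivity
  have h40 : (0 : ℤ) ≤ (a : ℤ) ^ 4 := by positivity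
  push_cast
  refine ⟨?_, ?_⟩
  · calc |g.m| ≤ (a : ℤ) * l.length := r1
      _ ≤ (a : ℤ) * n := mul_le_mul_of_nonneg_left hlen' (by linarith)
      _ ≤ (41 * (a : ℤ) ^ 4 + 25600 * k * (a : ℤ) ^ 8) * n :=
          mul_le_mul_of_nonneg_right (by linarith) hn0.le
  · intro c
    rcases c with c | j
    · change |g.x (Sum.inl c)| ≤ (41 * (a : ℤ) ^ 4 + 25600 * k * (a : ℤ) ^ 8) * (n : ℤ) ^ wtI c
      have h1 : (n : ℤ) * |g.x (Sum.inl c)| ≤ n * (40 * (a : ℤ) ^ 4 * (n : ℤ) ^ wtI c) := by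
        calc (n : ℤ) * |g.x (Sum.inl c)| ≤ 40 * (a : ℤ) ^ 4 * l.length * (n : ℤ) ^ wtI c := r2 c
          _ = (40 * (a : ℤ) ^ 4 * (n : ℤ) ^ wtI c) * l.length := by ring
          _ ≤ (40 * (a : ℤ) ^ 4 * (n : ℤ) ^ wtI c) * n :=
              mul_le_mul_of_nonneg_left hlen' (by positivity)
          _ = n * (40 * (a : ℤ) ^ 4 * (n : ℤ) ^ wtI c) := by ring
      have h2 := le_of_mul_le_mul_left h1 hn0
      refine h2.trans (mul_le_mul_of_nonneg_right ?_ (by positivity))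
      linarith
    · change |g.x (Sum.inr j)| ≤ (41 * (a : ℤ) ^ 4 + 25600 * k * (a : ℤ) ^ 8) * (n : ℤ) ^ 5
      calc |g.x (Sum.inr j)| ≤ (41 * (a : ℤ) ^ 4 + 25600 * k * (a : ℤ) ^ 8) * l.length *
            (n : ℤ) ^ 4 := r3 j
        _ = ((41 * (a : ℤ) ^ 4 + 25600 * k * (a : ℤ) ^ 8) * (n : ℤ) ^ 4) * l.length := by ring
        _ ≤ ((41 * (a : ℤ) ^ 4 + 25600 * k * (a : ℤ) ^ 8) * (n : ℤ) ^ 4) * n :=
            mul_le_mul_of_nonneg_left hlen' (by positivity)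
        _ = (41 * (a : ℤ) ^ 4 + 25600 * k * (a : ℤ) ^ 8) * (n : ℤ) ^ 5 := by ring

end Pool.Agent.SBG.H91
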