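import Pool.Agent.Helper92_SBG.Rd

/-!
Module PWR: powers in the groups `Gp k`.
-/

namespace Pool.Agent.SBG.H91

open Pool.Agent.SBG

section poly

variable {k : ℕ}

/-- `u` is a polynomial sequence of degree less than `d`. -/
def Dg (d : ℕ) (u : ℕ → W k) : Prop := (fwdDiff 1)^[d] u = 0

lemma fwd_zero : fwdDiff 1 (0 : ℕ → W k) = 0 := by
  funext P; simp [fwdDiff]

lemma dg_succ_iff (d : ℕ) (u : ℕ → W k) : Dg (d + 1) u ↔ Dg d (fwdDiff 1 u) := by
  rw [Dg, Dg, Function.iterate_succ_apply]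

lemma dg_succ {d : ℕ} {u : ℕ → W k} (h : Dg d u) : Dg (d + 1) u := by
  rw [Dg] at h ⊢
  rw [Function.iterate_succ_apply', h, fwd_zero]

lemma dg_mono {d e : ℕ} (hde : d ≤ e) {u : ℕ → W k} (h : Dg d u) : Dg e u := by
  obtain ⟨f, rfl⟩ := Nat.exists_eq_add_of_le hde
  clear hde
  induction f with
  | zero => exact h
  | succ f ih => exact dg_succ ih

lemma dg_add {d : ℕ} {u v : ℕ → W k} (hu : Dg d u) (hv : Dg d v) : Dg d (u + v) := by
  rw [Dg] at hu hv ⊢
  rw [fwdDiff_iter_add, hu, hv, add_zero]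

lemma dg_zero (d : ℕ) : Dg d (0 : ℕ → W k) := dg_mono (Nat.zero_le d) (by rfl)

/-- The pointwise form. -/
def Bs (u v : ℕ → W k) : ℕ → W k := fun P => Bf (u P) (v P)

lemma fwd_Bs (u v : ℕ → W k) : fwdDiff 1 (Bs u v) =
    (Bs (fwdDiff 1 u) v + Bs u (fwdDiff 1 v)) + Bs (fwdDiff 1 u) (fwdDiff 1 v) := by
  funext P
  simp only [fwdDiff, Bs, Pi.add_apply, Bf_sub_left, Bf_sub_right]
  abel

lemma dg_Bs : ∀ (n d e : ℕ), d + e = n → ∀ u v : ℕ → W k, Dg d u → Dg e v →
    Dg (d + e - 1) (Bs u v) := by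
  intro n
  induction n using Nat.strong_induction_on with
  | _ n ih =>
    intro d e hn u v hu hv
    rcases d with _ | d
    · have h0 : u = 0 := hu
      have h1 : Bs u v = 0 := by
        funext P; rw [h0]; simp [Bs]
      rw [h1]; exact dg_zero _
    rcases e with _ | e
    · have h0 : v = 0 := hv
      have h1 : Bs u v = 0 := by
        funext P; rw [h0]; simp [Bs]
      rw [h1]; exact dg_zero _
    have hu' := (dg_succ_iff d u).mp hu
    have hv' := (dg_succ_iff e v).mp hv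
    have e0 : d + 1 + (e + 1) - 1 = (d + e) + 1 := by omega
    rw [e0, dg_succ_iff, fwd_Bs]
    refine dg_add (dg_add ?_ ?_) ?_
    · exact dg_mono (by omega) (ih (d + (e + 1)) (by omega) d (e + 1) rfl _ _ hu' hv)
    · exact dg_mono (by omega) (ih (d + 1 + e) (by omega) (d + 1) e rfl _ _ hu hv')
    · exact dg_mono (by omega) (ih (d + e) (by omega) d e rfl _ _ hu' hv')

lemma Dn_iter_add (d : ℕ) (x y : W k) : Dn^[d] (x + y) = Dn^[d] x + Dn^[d] y := by
  induction d generalizing x y with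
  | zero => rfl
  | succ d ih => rw [Function.iterate_succ_apply, Dn_add, ih]; rfl

lemma Dn_iter_zsmul (d : ℕ) (m : ℤ) (x : W k) : Dn^[d] (m • x) = m • Dn^[d] x := by
  induction d generalizing x with
  | zero => rfl
  | succ d ih =>
    rw [Function.iterate_succ_apply, ← Dh_apply, map_zsmul, ih]; rfl

lemma Dn_zero : Dn (0 : W k) = 0 := by
  rw [← Dh_apply, map_zero]

lemma Dn_iter_succ {d : ℕ} {x : W k} (h : Dn^[d] x = 0) : Dn^[d] (Dn x) = 0 := by
  rw [← Function.iterate_succ_apply, Function.iterate_succ_apply', h, Dn_zero]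

lemma dg_tp (m : ℤ) : ∀ (d : ℕ) (x : W k), Dn^[d] x = 0 → Dg d (fun P : ℕ => tp (P * m) x) := by
  intro d
  induction d with
  | zero =>
    intro x hx
    have h0 : x = 0 := hx
    have h1 : (fun P : ℕ => tp (P * m) x) = (0 : ℕ → W k) := by
      funext P; rw [h0, map_zero]; rfl
    rw [h1]; exact dg_zero _
  | succ d ih =>
    intro x hx
    rw [dg_succ_iff]
    have h1 : fwdDiff 1 (fun P : ℕ => tp (P * m) x) = fun P : ℕ => tp (P * m) (tp m x - x) := by
      funext P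
      simp only [fwdDiff, map_sub]
      rw [← tp_add]
      congr 3
      push_cast
      ring
    rw [h1]
    apply ih
    have h2 : tp m x - x = Ring.choose m 1 • Dn x + Ring.choose m 2 • Dn (Dn x) +
        Ring.choose m 3 • Dn (Dn (Dn x)) := by
      rw [tp_expand, Fx]; abel
    have d1 : Dn^[d] (Dn x) = 0 := by rw [← Function.iterate_succ_apply]; exact hx
    have d2 : Dn^[d] (Dn (Dn x)) = 0 := Dn_iter_succ d1
    have d3 : Dn^[d] (Dn (Dn (Dn x))) = 0 := Dn_iter_succ d2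
    rw [h2, Dn_iter_add, Dn_iter_add, Dn_iter_zsmul, Dn_iter_zsmul, Dn_iter_zsmul, d1, d2, d3]
    simp

/-- The sum of the vectors `T ^ (i m) x`, `i < P`. -/
def ys (m : ℤ) (x : W k) (P : ℕ) : W k := ∑ i ∈ Finset.range P, tp (i * m) x

lemma pow_m (g : Gp k) (P : ℕ) : (g ^ P).m = P * g.m := by
  induction P with
  | zero => simp
  | succ P ih => rw [pow_succ, Gp.mul_m, ih]; push_cast; ring

lemma pv_tp_congr (m : ℤ) {x y : W k} (h : pv x = pv y) : pv (tp m x) = pv (tp m y) := by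
  have h1 : x = y + zin (pz x - pz y) := by
    apply W_ext
    · rw [h]; simp
    · simp
  rw [h1, map_add, tp_zin]
  simp

lemma pv_pow (g : Gp k) (P : ℕ) : pv (g ^ P).x = pv (ys g.m g.x P) := by
  induction P with
  | zero => simp [ys]
  | succ P ih =>
    rw [pow_succ, Gp.mul_x, pv_add, pv_add, ih, pv_Bf, add_zero, pow_m, ys, ys,
      Finset.sum_range_succ, pv_add]

lemma fwd_ys (m : ℤ) (x : W k) : fwdDiff 1 (ys m x) = fun P : ℕ => tp (P * m) x := by
  funext P
  simp only [fwdDiff, ys, Finset.sum_range_succ, add_sub_cancel_left]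

lemma fwd_pow (g : Gp k) : fwdDiff 1 (fun P : ℕ => (g ^ P).x) =
    (fun P : ℕ => tp (P * g.m) g.x) + Bs (ys g.m g.x) (fun P : ℕ => tp (P * g.m) g.x) := by
  funext P
  simp only [fwdDiff, Bs, Pi.add_apply]
  rw [pow_succ, Gp.mul_x, pow_m, Bf_congr (pv_pow g P) rfl]
  abel

lemma dg_pow (g : Gp k) : Dg 9 (fun P : ℕ => (g ^ P).x) := by
  have hw : Dg 4 (fun P : ℕ => tp (P * g.m) g.x) := dg_tp g.m 4 g.x (Dn_four g.x)
  have hy : Dg 5 (ys g.m g.x) := by
    rw [dg_succ_iff, fwd_ys]; exact hw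
  rw [dg_succ_iff, fwd_pow]
  refine dg_add (dg_mono (by norm_num) hw) ?_
  exact dg_Bs 9 5 4 rfl _ _ hy hw

end poly

lemma choose_dvd (E j : ℕ) (hj : j ∣ 40320) (hj0 : 0 < j) : E ∣ (40320 * E).choose j := by
  obtain ⟨q, hq⟩ := hj
  rcases Nat.eq_zero_or_pos E with rfl | hE
  · rw [mul_zero, Nat.choose_eq_zero_of_lt hj0]
  obtain ⟨N, hN⟩ : ∃ N, 40320 * E = N + 1 := ⟨40320 * E - 1, by omega⟩
  obtain ⟨i, rfl⟩ : ∃ i, j = i + 1 := ⟨j - 1, by omega⟩
  have h1 : (N + 1) * N.choose i = (N + 1).choose (i + 1) * (i + 1) := Nat.add_one_mul_choose_eq N i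
  rw [← hN, hq] at h1
  refine ⟨q * N.choose i, ?_⟩
  apply Nat.eq_of_mul_eq_mul_right hj0
  rw [hq, ← h1]
  ring

/-- PWR. -/
theorem pwr : PwrStmt := by
  intro k g E
  set u : ℕ → W k := fun P => (g ^ P).x with hu
  have hd : Dg 9 u := dg_pow g
  have h0 : u 0 = 0 := by simp [hu]
  have h1 := shift_eq_sum_fwdDiff_iter (1 : ℕ) u (40320 * E) 0
  have h2 : ∀ j, ∃ y : W k, (40320 * E).choose j • (fwdDiff 1)^[j] u 0 = E • y := by
    intro j
    rcases Nat.eq_zero_or_pos j with rfl | hj0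
    · refine ⟨0, ?_⟩
      rw [Function.iterate_zero, id, h0, smul_zero, smul_zero]
    rcases Nat.lt_or_ge j 9 with hj | hj
    · have hj' : j ∣ 40320 := by
        interval_cases j <;> norm_num
      obtain ⟨c, hc⟩ := choose_dvd E j hj' hj0
      exact ⟨c • (fwdDiff 1)^[j] u 0, by rw [hc, mul_smul]⟩
    · refine ⟨0, ?_⟩
      have h3 : Dg j u := dg_mono hj hd
      rw [Dg] at h3
      rw [h3, Pi.zero_apply, smul_zero, smul_zero]
  choose y hy using h2
  refine ⟨∑ j ∈ Finset.range (40320 * E + 1), y j, ?_⟩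
  apply Gp.ext
  · rw [pow_m]; push_cast; ring
  · have h3 : (0 : ℕ) + (40320 * E) • 1 = 40320 * E := by simp
    rw [h3] at h1
    change u (40320 * E) = _
    rw [h1, Finset.smul_sum]
    exact Finset.sum_congr rfl fun j _ => hy j

end Pool.Agent.SBG.H91
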